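import Pool.Agent.H75.GS.Targets

/-!
# There are rarely few non-members
-/

set_option autoImplicit false

namespace Pool.Agent.H85.GS

open Finset

variable {X : Type} [Fintype X] [DecidableEq X]

/-- the sign of a bit -/
def sg (c : Bool) : ℝ := if c = false then 1 else -1

theorem sg_sq (c : Bool) : sg c * sg c = 1 := by
  cases c <;> simp [sg]

theorem sg_not (c : Bool) : sg (!c) = - sg c := by
  cases c <;> simp [sg]

/-- flip the bit at `x` -/
def fl (x : X) (b : X → Bool) : X → Bool := fun z => if z = x then !b z else b z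

theorem fl_fl (x : X) : Function.Involutive (fl x) := by
  intro b
  funext z
  unfold fl
  by_cases h : z = x <;> simp [h]

theorem cross (x y : X) (h : x ≠ y) : ∑ b : X → Bool, sg (b x) * sg (b y) = 0 := by
  have h1 : ∑ b : X → Bool, sg (b x) * sg (b y) =
      ∑ b : X → Bool, sg (fl x b x) * sg (fl x b y) :=
    (Equiv.sum_comp ((fl_fl x).toPerm _) (fun b : X → Bool => sg (b x) * sg (b y))).symm
  have h2 : ∑ b : X → Bool, sg (fl x b x) * sg (fl x b y) =
      - ∑ b : X → Bool, sg (b x) * sg (b y) := by
    rw [← Finset.sum_neg_distrib]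
    refine Finset.sum_congr rfl fun b _ => ?_
    simp only [fl, if_true, if_neg h.symm, sg_not]
    ring
  linarith

theorem second : ∑ b : X → Bool, (∑ x, sg (b x)) ^ 2 = (Fintype.card X : ℝ) * 2 ^ Fintype.card X := by
  have h1 : ∀ b : X → Bool, (∑ x, sg (b x)) ^ 2 = ∑ x, ∑ y, sg (b x) * sg (b y) := by
    intro b
    rw [sq, Finset.sum_mul_sum]
  simp_rw [h1]
  rw [Finset.sum_comm]
  have h2 : ∀ x : X, ∑ b : X → Bool, ∑ y, sg (b x) * sg (b y) = (2 : ℝ) ^ Fintype.card X := by
    intro x
    rw [Finset.sum_comm, Finset.sum_eq_single x]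
    · simp [sg_sq]
    · intro y _ hy
      exact cross x y (Ne.symm hy)
    · intro h
      exact absurd (Finset.mem_univ x) h
  rw [Finset.sum_congr rfl fun x _ => h2 x]
  simp

theorem sum_sg (b : X → Bool) : ∑ x, sg (b x) =
    2 * ((univ.filter fun x => b x = false).card : ℝ) - Fintype.card X := by
  have h1 : ∀ x, sg (b x) = 2 * (if b x = false then (1 : ℝ) else 0) - 1 := by
    intro x
    unfold sg
    split_ifs <;> norm_num
  simp_rw [h1]
  rw [Finset.sum_sub_distrib, ← Finset.mul_sum, Finset.sum_boole]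
  simp

open Classical in
theorem few_b (hN : 64 ≤ Fintype.card X) :
    ((univ.filter fun b : X → Bool => 4 * (univ.filter fun x => b x = false).card <
      Fintype.card X).card : ℝ) ≤ 1 / 16 * 2 ^ Fintype.card X := by
  have hN' : (64 : ℝ) ≤ Fintype.card X := by exact_mod_cast hN
  obtain ⟨N, hNd⟩ : ∃ N : ℝ, N = (Fintype.card X : ℝ) := ⟨_, rfl⟩
  rw [← hNd] at hN'
  set F := univ.filter fun b : X → Bool => 4 * (univ.filter fun x => b x = false).card <
    Fintype.card X with hF
  have h1 : (F.card : ℝ) * (N ^ 2 / 4) ≤ N * 2 ^ Fintype.card X := by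
    rw [hNd, ← second, ← hNd, ← nsmul_eq_mul, ← Finset.sum_const]
    calc ∑ b ∈ F, N ^ 2 / 4 ≤ ∑ b ∈ F, (∑ x, sg (b x)) ^ 2 := by
          refine Finset.sum_le_sum fun b hb => ?_
          have hb' : 4 * (univ.filter fun x => b x = false).card < Fintype.card X := by
            simpa [hF] using hb
          have hb2 : 4 * ((univ.filter fun x => b x = false).card : ℝ) < N := by
            rw [hNd]; exact_mod_cast hb'
          rw [sum_sg, ← hNd]
          have h0 : (0 : ℝ) ≤ ((univ.filter fun x => b x = false).card : ℝ) := by positivity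
          nlinarith
      _ ≤ ∑ b : X → Bool, (∑ x, sg (b x)) ^ 2 :=
          Finset.sum_le_sum_of_subset_of_nonneg (Finset.subset_univ _) fun b _ _ => sq_nonneg _
  have h2 : (F.card : ℝ) * N ≤ 4 * 2 ^ Fintype.card X := by
    have hpos : 0 < N / 4 := by linarith
    have : ((F.card : ℝ) * N) * (N / 4) ≤ (4 * 2 ^ Fintype.card X) * (N / 4) := by
      calc ((F.card : ℝ) * N) * (N / 4) = (F.card : ℝ) * (N ^ 2 / 4) := by ring
        _ ≤ N * 2 ^ Fintype.card X := h1
        _ = _ := by ring
    exact le_of_mul_le_mul_right this hpos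
  have h3 : (F.card : ℝ) * 64 ≤ F.card * N := by
    apply mul_le_mul_of_nonneg_left hN' (by positivity)
  linarith

open Classical in
theorem pf_FEW : Pool.Agent.H75.GS.T_FEW := by
  intro X Z _ _ _ hN
  have h1 : (univ.filter fun p : (X → Z) × (X → Bool) => Pool.Agent.H75.GS.Few p) =
      (univ : Finset (X → Z)) ×ˢ (univ.filter fun b : X → Bool =>
        4 * (univ.filter fun x => b x = false).card < Fintype.card X) := by
    ext p
    simp only [Finset.mem_filter, Finset.mem_univ, true_and, Finset.mem_product]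
    rfl
  rw [h1, Finset.card_product, Fintype.card_prod]
  push_cast
  have h2 := few_b (X := X) hN
  have h3 : (Fintype.card (X → Bool) : ℝ) = 2 ^ Fintype.card X := by simp
  rw [h3, Finset.card_univ]
  have h4 : (0 : ℝ) ≤ Fintype.card (X → Z) := by positivity
  nlinarith

end Pool.Agent.H85.GS
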